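import Pool.Agent.helper56.P2.SpecU

/-! # p2:UEXT: gluing -/

set_option autoImplicit false
set_option linter.unusedVariables false

namespace Pool.Agent.P2U

open MeasureTheory Set Filter Topology Metric Complex
open scoped ENNReal ContDiff

theorem UEXT : UEXT_stmt := by
  intro X R G hR hX hXG hloc
  classical
  choose! d hd Y hY hXY hYG using hloc
  have hns : ∀ w : ℂ, w ∈ sphere (0 : ℂ) R → ‖w‖ = R := fun w hw => by simpa using hw
  obtain ⟨δ, hδ, hleb⟩ := lebesgue_number_lemma_of_metric (isCompact_sphere (0 : ℂ) R)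
    (c := fun w1 : sphere (0 : ℂ) R => ball (w1 : ℂ) (d w1)) (fun _ => isOpen_ball)
    (fun w hw => mem_iUnion.2 ⟨⟨w, hw⟩, mem_ball_self (hd w (hns w hw))⟩)
  have hZ : ∀ x : ℂ, ∃ Z : ℂ → ℂ, ‖x‖ = R → DifferentiableOn ℂ Z (ball x δ) ∧
      EqOn X Z (ball 0 R ∩ ball x δ) ∧ ∀ w ∈ ball x δ, (Z w, w) ∈ G := by
    intro x
    by_cases hx : ‖x‖ = R
    · obtain ⟨w1, hw1⟩ := hleb x (by simpa using hx)
      have h1 := hns w1.1 w1.2
      exact ⟨Y w1, fun _ => ⟨(hY w1 h1).mono hw1, (hXY w1 h1).mono (inter_subset_inter_right _ hw1),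
        fun w hw => hYG w1 h1 w (hw1 hw)⟩⟩
    · exact ⟨0, fun h => absurd h hx⟩
  choose Z hZ using hZ
  have hcompat : ∀ x x' : ℂ, ‖x‖ = R → ‖x'‖ = R → ∀ w ∈ ball x δ ∩ ball x' δ, Z x w = Z x' w := by
    intro x x' hx hx' w hw
    set U : Set ℂ := ball x δ ∩ ball x' δ with hU
    have hUo : IsOpen U := isOpen_ball.inter isOpen_ball
    have hUc : IsPreconnected U := ((convex_ball x δ).inter (convex_ball x' δ)).isPreconnected
    obtain ⟨a1, a2, -⟩ := hZ x hx
    obtain ⟨b1, b2, -⟩ := hZ x' hx'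
    have hxx : ‖x - x'‖ < 2 * δ := by
      have h1 := mem_ball_iff_norm.1 hw.1
      have h2 := mem_ball_iff_norm.1 hw.2
      calc ‖x - x'‖ = ‖(w - x') - (w - x)‖ := by congr 1; ring
        _ ≤ ‖w - x'‖ + ‖w - x‖ := norm_sub_le _ _
        _ < 2 * δ := by linarith
    set m : ℂ := (x + x') / 2 with hm
    have hmU : m ∈ U := by
      constructor
      · rw [mem_ball_iff_norm, show m - x = -((x - x') / 2) by rw [hm]; ring, norm_neg, norm_div]
        norm_num
        linarith
      · rw [mem_ball_iff_norm, show m - x' = (x - x') / 2 by rw [hm]; ring, norm_div]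
        norm_num
        linarith
    have hmR : ‖m‖ ≤ R := by
      rw [hm, norm_div]
      have := norm_add_le x x'
      norm_num
      linarith
    have hcont : ContinuousAt (fun t : ℝ => (1 - (t : ℂ)) * m) 0 := by fun_prop
    have hnb : ∀ᶠ t : ℝ in 𝓝 0, (1 - (t : ℂ)) * m ∈ U := by
      refine hcont.eventually (hUo.mem_nhds ?_)
      simpa using hmU
    obtain ⟨ε, hε, hball⟩ := Metric.eventually_nhds_iff.1 hnb
    set t : ℝ := min (ε / 2) (1 / 2) with ht
    have ht0 : 0 < t := by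
      rw [ht]
      positivity
    have htε : t < ε := lt_of_le_of_lt (min_le_left _ _) (by linarith)
    have ht1 : t ≤ 1 / 2 := min_le_right _ _
    have hw0 := hball (y := t) (by rw [Real.dist_eq, sub_zero, abs_of_pos ht0]; exact htε)
    set w0 : ℂ := (1 - (t : ℂ)) * m with hw0d
    have hw0R : w0 ∈ ball (0 : ℂ) R := by
      rw [mem_ball_zero_iff, hw0d, norm_mul]
      have h1 : ‖(1 - (t : ℂ))‖ = 1 - t := by
        rw [show (1 - (t : ℂ)) = ((1 - t : ℝ) : ℂ) by push_cast; ring, Complex.norm_real,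
          Real.norm_of_nonneg (by linarith)]
      rw [h1]
      nlinarith
    have hev : Z x =ᶠ[𝓝 w0] Z x' := by
      filter_upwards [(hUo.inter isOpen_ball).mem_nhds (show w0 ∈ U ∩ ball 0 R from ⟨hw0, hw0R⟩)] with z hz
      rw [← a2 ⟨hz.2, hz.1.1⟩, ← b2 ⟨hz.2, hz.1.2⟩]
    exact ((a1.mono inter_subset_left).analyticOnNhd hUo).eqOn_of_preconnected_of_eventuallyEq
      ((b1.mono inter_subset_right).analyticOnNhd hUo) hUc hw0 hev hw
  -- the projection to the circle
  set pr : ℂ → ℂ := fun w => ((R / ‖w‖ : ℝ) : ℂ) * w with hpr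
  have hprn : ∀ w : ℂ, R ≤ ‖w‖ → ‖pr w‖ = R := by
    intro w hw
    have hw0 : 0 < ‖w‖ := lt_of_lt_of_le hR hw
    simp only [hpr]
    rw [norm_mul, Complex.norm_real, Real.norm_of_nonneg (by positivity)]
    field_simp
  have hprd : ∀ w : ℂ, R ≤ ‖w‖ → ‖w - pr w‖ = ‖w‖ - R := by
    intro w hw
    have hw0 : 0 < ‖w‖ := lt_of_lt_of_le hR hw
    have h1 : w - pr w = ((1 - R / ‖w‖ : ℝ) : ℂ) * w := by
      simp only [hpr]
      push_cast
      ring
    have h2 : 0 ≤ 1 - R / ‖w‖ := by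
      rw [sub_nonneg, div_le_one hw0]
      exact hw
    rw [h1, norm_mul, Complex.norm_real, Real.norm_of_nonneg h2]
    field_simp
  have hprc : ∀ w : ℂ, R ≤ ‖w‖ → ContinuousAt pr w := by
    intro w hw
    have hw0 : ‖w‖ ≠ 0 := (lt_of_lt_of_le hR hw).ne'
    refine ContinuousAt.mul ?_ continuousAt_id
    exact Complex.continuous_ofReal.continuousAt.comp (continuousAt_const.div continuous_norm.continuousAt hw0)
  refine ⟨R + δ / 2, by linarith, fun w => if ‖w‖ < R then X w else Z (pr w) w, ?_, ?_, ?_⟩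
  · intro w hw
    rw [mem_ball_zero_iff] at hw
    refine DifferentiableAt.differentiableWithinAt ?_
    rcases lt_or_ge ‖w‖ R with h | h
    · have h1 : (fun w => if ‖w‖ < R then X w else Z (pr w) w) =ᶠ[𝓝 w] X := by
        filter_upwards [isOpen_ball.mem_nhds (mem_ball_zero_iff.2 h)] with z hz
        rw [if_pos (mem_ball_zero_iff.1 hz)]
      exact (h1.differentiableAt_iff).2 (hX.differentiableAt (isOpen_ball.mem_nhds (mem_ball_zero_iff.2 h)))
    · have hx := hprn w h
      have hwx : w ∈ ball (pr w) δ := by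
        rw [mem_ball_iff_norm, hprd w h]
        linarith
      have h1 : (fun w => if ‖w‖ < R then X w else Z (pr w) w) =ᶠ[𝓝 w] Z (pr w) := by
        have e1 : ∀ᶠ z in 𝓝 w, z ∈ ball (pr w) δ := isOpen_ball.mem_nhds hwx
        have e2 : ∀ᶠ z in 𝓝 w, ‖z‖ < R + δ / 2 := (isOpen_lt continuous_norm continuous_const).mem_nhds hw
        filter_upwards [e1, e2] with z hz1 hz2
        by_cases hzR : ‖z‖ < R
        · rw [if_pos hzR]
          exact (hZ (pr w) hx).2.1 ⟨mem_ball_zero_iff.2 hzR, hz1⟩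
        · rw [if_neg hzR]
          rw [not_lt] at hzR
          refine hcompat _ _ (hprn z hzR) hx z ⟨?_, hz1⟩
          rw [mem_ball_iff_norm, hprd z hzR]
          linarith
      exact (h1.differentiableAt_iff).2 ((hZ (pr w) hx).1.differentiableAt (isOpen_ball.mem_nhds hwx))
  · intro w hw
    simp only
    rw [if_pos (mem_ball_zero_iff.1 hw)]
  · intro w hw
    rw [mem_ball_zero_iff] at hw
    simp only
    rcases lt_or_ge ‖w‖ R with h | h
    · rw [if_pos h]
      exact hXG w (mem_ball_zero_iff.2 h)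
    · rw [if_neg (not_lt.2 h)]
      refine (hZ (pr w) (hprn w h)).2.2 w ?_
      rw [mem_ball_iff_norm, hprd w h]
      linarith

end Pool.Agent.P2U
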