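import Pool.Agent.helper56.P2.SpecU

/-! # p2:UHV: vertical variation -/

set_option autoImplicit false
set_option linter.unusedVariables false

namespace Pool.Agent.P2U

open MeasureTheory Set Filter Topology Metric Complex
open scoped ENNReal ContDiff

theorem UHV_TB (a r : ℝ) : TB a r = ball (0 : ℂ) a ×ˢ ball (0 : ℂ) r := by
  ext p
  simp only [Set.mem_ofPred_eq, Set.mem_prod, mem_ball_zero_iff]

theorem UHV_open (a r : ℝ) : IsOpen (TB a r) := by
  rw [UHV_TB]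
  exact isOpen_ball.prod isOpen_ball

theorem UHV_dx {f : ℂ × ℂ → ℂ} {a r : ℝ} (hf : AnalyticOnNhd ℂ f (TB a r)) : ContinuousOn (dx f) (TB a r) :=
  (hf.fderiv.continuousOn).clm_apply continuousOn_const

theorem UHV_dv {f : ℂ × ℂ → ℂ} {a r : ℝ} (hf : AnalyticOnNhd ℂ f (TB a r)) : ContinuousOn (dv f) (TB a r) :=
  (hf.fderiv.continuousOn).clm_apply continuousOn_const

theorem UHV_cv {P Q : ℂ × ℂ → ℂ} {a r : ℝ} (h : Hol P Q a r) : ContinuousOn (cv P Q) (TB a r) :=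
  (h.hQ.continuousOn.mul (UHV_dv h.hP)).sub (h.hP.continuousOn.mul (UHV_dv h.hQ))

theorem UHV_cx {P Q : ℂ × ℂ → ℂ} {a r : ℝ} (h : Hol P Q a r) : ContinuousOn (cx P Q) (TB a r) :=
  (h.hQ.continuousOn.mul (UHV_dx h.hP)).sub (h.hP.continuousOn.mul (UHV_dx h.hQ))

theorem UHV_ne {P Q : ℂ × ℂ → ℂ} {a r : ℝ} (h : Hol P Q a r) {p : ℂ × ℂ} (hp : p ∈ TB a r) :
    0 < ‖P p‖ ^ 2 + ‖Q p‖ ^ 2 := by
  rcases h.ne p hp with h1 | h1
  · have := norm_pos_iff.2 h1
    positivity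
  · have := norm_pos_iff.2 h1
    positivity

theorem UHV_om {P Q : ℂ × ℂ → ℂ} {a r : ℝ} (h : Hol P Q a r) : ContinuousOn (om P Q) (TB a r) := by
  refine ContinuousOn.inv₀ ?_ fun p hp => ?_
  · exact ((h.hP.continuousOn.norm.pow 2).add (h.hQ.continuousOn.norm.pow 2)).pow 2
  · have := UHV_ne h hp
    positivity

theorem UHV_om0 (P Q : ℂ × ℂ → ℂ) (p : ℂ × ℂ) : 0 ≤ om P Q p := by
  unfold om
  positivity

/-- slices in the second variable -/
theorem UHV_slv {f : ℂ × ℂ → ℂ} {x v : ℂ} (hf : AnalyticAt ℂ f (x, v)) :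
    AnalyticAt ℂ (fun w => f (x, w)) v ∧ deriv (fun w => f (x, w)) v = dv f (x, v) := by
  have h1 : HasDerivAt (fun w : ℂ => ((x, w) : ℂ × ℂ)) ((0, 1) : ℂ × ℂ) v :=
    (hasDerivAt_const v x).prodMk (hasDerivAt_id v)
  constructor
  · exact AnalyticAt.fun_comp hf (analyticAt_const.prod analyticAt_id)
  · exact (hf.differentiableAt.hasFDerivAt.comp_hasDerivAt v h1).deriv

theorem UHV_slx {f : ℂ × ℂ → ℂ} {x v : ℂ} (hf : AnalyticAt ℂ f (x, v)) :
    AnalyticAt ℂ (fun w => f (w, v)) x ∧ deriv (fun w => f (w, v)) x = dx f (x, v) := by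
  have h1 : HasDerivAt (fun w : ℂ => ((w, v) : ℂ × ℂ)) ((1, 0) : ℂ × ℂ) x :=
    (hasDerivAt_id x).prodMk (hasDerivAt_const x v)
  constructor
  · exact AnalyticAt.fun_comp hf (analyticAt_id.prod analyticAt_const)
  · exact (hf.differentiableAt.hasFDerivAt.comp_hasDerivAt x h1).deriv

/-- one variable: the energy in a disc -/
theorem UHV_one (hGRN : UGRN_stmt) (f g : ℂ → ℂ) (R : ℝ) (hf : AnalyticOnNhd ℂ f (ball 0 R))
    (hg : AnalyticOnNhd ℂ g (ball 0 R)) (hne : ∀ z ∈ ball (0 : ℂ) R, f z ≠ 0 ∨ g z ≠ 0) (φ : ℂ → ℝ)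
    (hφ : ContDiff ℝ 2 φ) (hsupp : HasCompactSupport φ) (hts : tsupport φ ⊆ ball 0 R) (hφ0 : ∀ z, 0 ≤ φ z) (c M L S : ℝ)
    (hS : 0 < S) (hM0 : 0 ≤ M)
    (hM : ∀ z, ‖z‖ < S → |Real.log (‖f z‖ ^ 2 + ‖g z‖ ^ 2) / 2 - c| ≤ M) (hL : ∀ z, |Lz φ z| ≤ L)
    (hL0 : ∀ z, S ≤ ‖z‖ → Lz φ z = 0) :
    ∫⁻ z, ENNReal.ofReal (φ z * (‖g z * deriv f z - f z * deriv g z‖ ^ 2 / (‖f z‖ ^ 2 + ‖g z‖ ^ 2) ^ 2)) ≤
      ENNReal.ofReal (2 * (M * L * (Real.pi * S ^ 2))) := by
  set h : ℂ → ℝ := fun z => φ z * (‖g z * deriv f z - f z * deriv g z‖ ^ 2 / (‖f z‖ ^ 2 + ‖g z‖ ^ 2) ^ 2) with hh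
  have hcont : Continuous h := by
    refine continuous_of_tsupport fun z hz => ?_
    have hz' : z ∈ ball (0 : ℂ) R := hts (tsupport_mul_subset_left hz)
    have hpos : 0 < ‖f z‖ ^ 2 + ‖g z‖ ^ 2 := by
      rcases hne z hz' with h1 | h1
      · have := norm_pos_iff.2 h1
        positivity
      · have := norm_pos_iff.2 h1
        positivity
    refine hφ.continuous.continuousAt.mul (ContinuousAt.div ?_ ?_ (by positivity))
    · exact (((hg z hz').continuousAt.mul (hf z hz').deriv.continuousAt).sub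
        ((hf z hz').continuousAt.mul (hg z hz').deriv.continuousAt)).norm.pow 2
    · exact (((hf z hz').continuousAt.norm.pow 2).add ((hg z hz').continuousAt.norm.pow 2)).pow 2
  have hcs : HasCompactSupport h := hsupp.mul_right
  have hint : Integrable h := hcont.integrable_of_hasCompactSupport hcs
  have hnn : ∀ z, 0 ≤ h z := fun z => mul_nonneg (hφ0 z) (by positivity)
  rw [← ofReal_integral_eq_lintegral_ofReal hint (Eventually.of_forall hnn)]
  refine ENNReal.ofReal_le_ofReal ?_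
  have e := hGRN f g R hf hg hne φ hφ hsupp hts c
  have e' : ∫ z, h z = 2 * ∫ z, (Real.log (‖f z‖ ^ 2 + ‖g z‖ ^ 2) / 2 - c) * Lz φ z := e
  rw [e']
  refine mul_le_mul_of_nonneg_left ?_ (by norm_num)
  have hset : ∫ z, (Real.log (‖f z‖ ^ 2 + ‖g z‖ ^ 2) / 2 - c) * Lz φ z =
      ∫ z in ball (0 : ℂ) S, (Real.log (‖f z‖ ^ 2 + ‖g z‖ ^ 2) / 2 - c) * Lz φ z := by
    refine (setIntegral_eq_integral_of_forall_compl_eq_zero fun z hz => ?_).symm
    rw [mem_ball_zero_iff, not_lt] at hz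
    rw [hL0 z hz, mul_zero]
  rw [hset]
  have hvol : (volume (ball (0 : ℂ) S)) = ENNReal.ofReal (Real.pi * S ^ 2) := by
    rw [Complex.volume_ball, mul_comm, ENNReal.ofReal_mul Real.pi_pos.le, ENNReal.ofReal_pow hS.le,
      ENNReal.ofReal_eq_coe_nnreal Real.pi_pos.le]
    rfl
  have h1 := norm_setIntegral_le_of_norm_le_const (μ := volume) (s := ball (0 : ℂ) S) (C := M * L)
    (f := fun z => (Real.log (‖f z‖ ^ 2 + ‖g z‖ ^ 2) / 2 - c) * Lz φ z)
    (by rw [hvol]; exact ENNReal.ofReal_lt_top) (fun z hz => by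
      rw [Real.norm_eq_abs, abs_mul]
      exact mul_le_mul (hM z (mem_ball_zero_iff.1 hz)) (hL z) (abs_nonneg _) hM0)
  have h2 : volume.real (ball (0 : ℂ) S) = Real.pi * S ^ 2 := by
    rw [Measure.real, hvol, ENNReal.toReal_ofReal (by positivity)]
  rw [h2] at h1
  exact (le_abs_self _).trans h1

theorem UHV (hGRN : UGRN_stmt) (hTSA : UTSA_stmt) : UHV_stmt := by
  intro C0 α hC0 hα hα1
  refine ⟨768 * Real.pi ^ 2 * C0, by positivity, fun P Q u D τ hD hD1 ρ hρ hρτ => ?_⟩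
  have hτ : 0 < τ := by linarith
  set R : ℝ := 3 * ρ / 2 with hR
  have hR0 : 0 < R := by positivity
  have hRτ : R < τ := by
    rw [hR]
    linarith
  obtain ⟨t1, t2, t3, t4, t5, t6, t7⟩ := hTSA R hR0
  have hcs : tsupport (XS R) ⊆ closedBall 0 R := by
    refine closure_minimal (fun z hz => ?_) isClosed_closedBall
    rw [mem_closedBall_zero_iff]
    by_contra hcon
    exact hz (t3 z (not_le.1 hcon).le).1
  have hcomp : HasCompactSupport (XS R) := (isCompact_closedBall (0 : ℂ) R).of_isClosed_subset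
    (isClosed_tsupport _) hcs
  have hsub : tsupport (XS R) ⊆ ball 0 τ := hcs.trans (closedBall_subset_ball hRτ)
  set K : ℝ := 2 * ((C0 + D * C0 * R ^ α) * (6 / R ^ 2) * (Real.pi * R ^ 2)) with hK
  have hRα : 0 ≤ R ^ α := Real.rpow_nonneg hR0.le _
  have hD0 : 0 ≤ D := by linarith
  have hK0 : 0 ≤ K := by
    rw [hK]
    positivity
  have hslice : ∀ x ∈ ball (0 : ℂ) 2, ∫⁻ v in ball (0 : ℂ) ρ, ENNReal.ofReal (‖cv P Q (x, v)‖ ^ 2 * om P Q (x, v)) ≤
      ENNReal.ofReal (8 * K) := by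
    intro x hx
    rw [mem_ball_zero_iff] at hx
    have hmem : ∀ v ∈ ball (0 : ℂ) τ, (x, v) ∈ TB 4 τ := by
      intro v hv
      rw [mem_ball_zero_iff] at hv
      exact ⟨by simp only; linarith, hv⟩
    have hm := UHV_one hGRN (fun v => P (x, v)) (fun v => Q (x, v)) τ
      (fun v hv => (UHV_slv (hD.hol.hP _ (hmem v hv))).1) (fun v hv => (UHV_slv (hD.hol.hQ _ (hmem v hv))).1)
      (fun v hv => hD.hol.ne _ (hmem v hv)) (XS R) t1 hcomp hsub (fun z => (t2 z).1) (D * u (x, 0))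
      (C0 + D * C0 * R ^ α) (6 / R ^ 2) R hR0 (by positivity) (fun z hz => by
        have hz' : (x, z) ∈ TB 4 τ := hmem z (mem_ball_zero_iff.2 (hz.trans hRτ))
        have h0' : (x, (0 : ℂ)) ∈ TB 4 τ := hmem 0 (mem_ball_zero_iff.2 (by simpa using hτ))
        have a1 := hD.app _ hz'
        have a2 := hD.hoe _ hz' _ h0'
        have a3 : ‖((x, z) : ℂ × ℂ) - (x, 0)‖ ^ α ≤ R ^ α := by
          have : ‖((x, z) : ℂ × ℂ) - (x, 0)‖ = ‖z‖ := by
            simp [Prod.norm_def]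
          rw [this]
          exact Real.rpow_le_rpow (norm_nonneg _) hz.le hα.le
        have a4 : |D * u (x, z) - D * u (x, 0)| ≤ D * C0 * R ^ α := by
          rw [← mul_sub, abs_mul, abs_of_nonneg hD0, mul_assoc]
          exact mul_le_mul_of_nonneg_left (a2.trans (mul_le_mul_of_nonneg_left a3 (by linarith))) hD0
        calc |Real.log (‖P (x, z)‖ ^ 2 + ‖Q (x, z)‖ ^ 2) / 2 - D * u (x, 0)| ≤
              |Real.log (‖P (x, z)‖ ^ 2 + ‖Q (x, z)‖ ^ 2) / 2 - D * u (x, z)| + |D * u (x, z) - D * u (x, 0)| :=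
              abs_sub_le _ _ _
          _ ≤ _ := add_le_add a1 a4)
      t7 (fun z hz => (t3 z hz).2.2)
    have h8 : ENNReal.ofReal (8 * K) = 8 * ENNReal.ofReal K := by
      rw [ENNReal.ofReal_mul (by norm_num)]
      norm_num
    rw [h8]
    refine le_trans ?_ (mul_le_mul_right hm 8)
    rw [← lintegral_const_mul' _ _ (by norm_num), ← lintegral_indicator measurableSet_ball]
    refine lintegral_mono fun v => ?_
    by_cases hv : v ∈ ball (0 : ℂ) ρ
    · rw [indicator_of_mem hv]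
      have hv1 : ‖v‖ < ρ := mem_ball_zero_iff.1 hv
      have hvτ : (x, v) ∈ TB 4 τ := hmem v (mem_ball_zero_iff.2 (by linarith))
      have e1 := (UHV_slv (hD.hol.hP _ hvτ)).2
      have e2 := (UHV_slv (hD.hol.hQ _ hvτ)).2
      simp only
      rw [e1, e2]
      have e3 : ‖Q (x, v) * dv P (x, v) - P (x, v) * dv Q (x, v)‖ ^ 2 / (‖P (x, v)‖ ^ 2 + ‖Q (x, v)‖ ^ 2) ^ 2 =
          ‖cv P Q (x, v)‖ ^ 2 * om P Q (x, v) := by
        unfold cv om
        rw [div_eq_mul_inv]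
      rw [e3]
      have e4 : 1 / 8 ≤ XS R v := t4 v (by rw [hR]; linarith)
      have e5 : (8 : ℝ≥0∞) = ENNReal.ofReal 8 := by norm_num
      rw [e5, ← ENNReal.ofReal_mul (by norm_num)]
      refine ENNReal.ofReal_le_ofReal ?_
      have e6 : 0 ≤ ‖cv P Q (x, v)‖ ^ 2 * om P Q (x, v) := mul_nonneg (by positivity) (UHV_om0 P Q _)
      nlinarith
    · rw [indicator_of_notMem hv]
      exact bot_le
  have hmeas : AEMeasurable (fun p : ℂ × ℂ => ENNReal.ofReal (‖cv P Q p‖ ^ 2 * om P Q p))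
      ((volume.restrict (ball (0 : ℂ) 2)).prod (volume.restrict (ball (0 : ℂ) ρ))) := by
    rw [Measure.prod_restrict, ← Measure.volume_eq_prod, ← UHV_TB]
    refine ENNReal.measurable_ofReal.comp_aemeasurable ?_
    refine ContinuousOn.aemeasurable ?_ (UHV_open 2 ρ).measurableSet
    refine (((UHV_cv hD.hol).norm.pow 2).mul (UHV_om hD.hol)).mono fun p hp => ?_
    exact ⟨by have := hp.1; linarith, by have := hp.2; linarith⟩
  have hprod : ∫⁻ p in TB 2 ρ, ENNReal.ofReal (‖cv P Q p‖ ^ 2 * om P Q p) =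
      ∫⁻ x in ball (0 : ℂ) 2, ∫⁻ v in ball (0 : ℂ) ρ, ENNReal.ofReal (‖cv P Q (x, v)‖ ^ 2 * om P Q (x, v)) := by
    rw [UHV_TB, Measure.volume_eq_prod, ← Measure.prod_restrict, lintegral_prod _ hmeas]
  rw [hprod]
  refine (setLIntegral_mono' measurableSet_ball hslice).trans ?_
  rw [setLIntegral_const, Complex.volume_ball]
  have hvol : ENNReal.ofReal 2 ^ 2 * (NNReal.pi : ℝ≥0∞) = ENNReal.ofReal (4 * Real.pi) := by
    rw [ENNReal.ofReal_mul (by norm_num), ← ENNReal.ofReal_pow (by norm_num), ENNReal.ofReal_eq_coe_nnreal Real.pi_pos.le]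
    norm_num
    rfl
  rw [hvol, ← ENNReal.ofReal_mul (by positivity)]
  refine ENNReal.ofReal_le_ofReal ?_
  have hKe : K = 12 * Real.pi * C0 * (1 + D * R ^ α) := by
    rw [hK]
    field_simp
    ring
  have hRα2 : R ^ α ≤ 2 * ρ ^ α := by
    have : R = 3 / 2 * ρ := by rw [hR]; ring
    rw [this, Real.mul_rpow (by norm_num) hρ.le]
    refine mul_le_mul_of_nonneg_right ?_ (Real.rpow_nonneg hρ.le _)
    calc (3 / 2 : ℝ) ^ α ≤ (3 / 2 : ℝ) ^ (1 : ℝ) := Real.rpow_le_rpow_of_exponent_le (by norm_num) hα1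
      _ ≤ 2 := by norm_num
  have hρα : 0 ≤ ρ ^ α := Real.rpow_nonneg hρ.le _
  have hpi := Real.pi_pos
  rw [hKe]
  have s1 : 1 + D * R ^ α ≤ 2 * (D * ρ ^ α + 1) := by nlinarith
  calc 8 * (12 * Real.pi * C0 * (1 + D * R ^ α)) * (4 * Real.pi) = 384 * Real.pi ^ 2 * C0 * (1 + D * R ^ α) := by ring
    _ ≤ 384 * Real.pi ^ 2 * C0 * (2 * (D * ρ ^ α + 1)) := mul_le_mul_of_nonneg_left s1 (by positivity)
    _ = _ := by ring

end Pool.Agent.P2U
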