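import Pool.Agent.helper62.P2.UHV

/-! # p2:ULAY: layer cake -/

set_option autoImplicit false
set_option linter.unusedVariables false

namespace Pool.Agent.P2U

open MeasureTheory Set Filter Topology Metric Complex
open scoped ENNReal ContDiff

/-- the dyadic radii -/
noncomputable def ULAY_r (t : ℝ) (k : ℕ) : ℝ := 2 * t * (1 / 2) ^ k

theorem ULAY_pos {t : ℝ} (ht : 0 < t) (k : ℕ) : 0 < ULAY_r t k := by
  unfold ULAY_r
  positivity

theorem ULAY_ex {t m : ℝ} (ht : 0 < t) (hm : 0 < m) (hmt : m ≤ t) : ∃ k : ℕ, ULAY_r t k / 4 < m ∧ m ≤ ULAY_r t k / 2 := by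
  obtain ⟨k, h1, h2⟩ := exists_nat_pow_near_of_lt_one (x := m / t) (y := 1 / 2) (by positivity)
    ((div_le_one ht).2 hmt) (by norm_num) (by norm_num)
  refine ⟨k, ?_, ?_⟩
  · rw [lt_div_iff₀ ht] at h1
    unfold ULAY_r
    rw [pow_succ] at h1
    linarith
  · rw [div_le_iff₀ ht] at h2
    unfold ULAY_r
    linarith

theorem ULAY_rpow {t e : ℝ} (ht : 0 < t) (k : ℕ) : ULAY_r t k ^ e = (2 * t) ^ e * ((1 / 2 : ℝ) ^ e) ^ k := by
  unfold ULAY_r
  rw [Real.mul_rpow (by positivity) (by positivity), ← Real.rpow_natCast, ← Real.rpow_mul (by norm_num),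
    mul_comm (k : ℝ) e, Real.rpow_mul (by norm_num), Real.rpow_natCast]

theorem ULAY_geo {β : ℝ} (hβ : 0 < β) {t K : ℝ} (ht : 0 < t) (hK : 0 ≤ K) :
    ∑' k : ℕ, ENNReal.ofReal (K * ULAY_r t k ^ β) = ENNReal.ofReal (K * (2 * t) ^ β * (1 - (1 / 2 : ℝ) ^ β)⁻¹) := by
  have hr0 : (0 : ℝ) ≤ (1 / 2 : ℝ) ^ β := by positivity
  have hr1 : (1 / 2 : ℝ) ^ β < 1 := Real.rpow_lt_one (by norm_num) (by norm_num) hβ
  have hs := summable_geometric_of_lt_one hr0 hr1
  have h1 : ∀ k : ℕ, K * ULAY_r t k ^ β = K * (2 * t) ^ β * ((1 / 2 : ℝ) ^ β) ^ k := by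
    intro k
    rw [ULAY_rpow ht]
    ring
  simp only [h1]
  rw [← ENNReal.ofReal_tsum_of_nonneg (fun k => by positivity) (hs.mul_left _), tsum_mul_left,
    tsum_geometric_of_lt_one hr0 hr1]

theorem ULAY (hHV : UHV_stmt) : ULAY_stmt := by
  intro C0 α hC0 hα hα1
  obtain ⟨C, hC, hV⟩ := hHV C0 α hC0 hα hα1
  set β : ℝ := α / 2 with hβ
  have hβ0 : 0 < β := by positivity
  have hr1 : (1 / 2 : ℝ) ^ β < 1 := Real.rpow_lt_one (by norm_num) (by norm_num) hβ0
  have hinv : 0 < (1 - (1 / 2 : ℝ) ^ β)⁻¹ := inv_pos.2 (by linarith)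
  refine ⟨2 * C * (1 / 4) ^ (-β) * 2 ^ β * (1 - (1 / 2 : ℝ) ^ β)⁻¹, by positivity,
    fun P Q u D τ hD hτ1 s t hs hst ht htτ hsD => ?_⟩
  have ht1 : t ≤ 1 / 4 := by linarith
  have hs1 : s ≤ 1 := by nlinarith
  have hDs : 1 ≤ D * s := by
    rw [div_le_iff₀ hs] at hsD
    linarith
  have hD1 : 1 ≤ D := by nlinarith [one_div_pos.2 hs]
  set h : ℂ × ℂ → ℝ≥0∞ := fun p => ENNReal.ofReal (‖cv P Q p‖ ^ 2 * om P Q p) with hh
  set c : ℕ → ℝ≥0∞ := fun k => if s ≤ ULAY_r t k then ENNReal.ofReal ((ULAY_r t k / 4) ^ (-β)) else 0 with hc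
  have hpt : ∀ p ∈ TB 2 t, ENNReal.ofReal ((max ‖p.2‖ s) ^ (-β) * ‖cv P Q p‖ ^ 2 * om P Q p) ≤
      ∑' k : ℕ, (TB 2 (ULAY_r t k)).indicator (fun p => c k * h p) p := by
    intro p hp
    have hm0 : 0 < max ‖p.2‖ s := lt_of_lt_of_le hs (le_max_right _ _)
    have hmt : max ‖p.2‖ s ≤ t := max_le hp.2.le (by nlinarith)
    obtain ⟨k, hk1, hk2⟩ := ULAY_ex ht hm0 hmt
    have hrk := ULAY_pos ht k
    have hsk : s ≤ ULAY_r t k := by
      have := le_max_right ‖p.2‖ s
      linarith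
    have hpk : p ∈ TB 2 (ULAY_r t k) := by
      refine ⟨hp.1, ?_⟩
      have := le_max_left ‖p.2‖ s
      linarith
    refine le_trans ?_ (ENNReal.le_tsum k)
    rw [indicator_of_mem hpk]
    simp only [hc, hh]
    rw [if_pos hsk, ← ENNReal.ofReal_mul (by positivity), mul_assoc]
    refine ENNReal.ofReal_le_ofReal (mul_le_mul_of_nonneg_right ?_ (mul_nonneg (by positivity) (UHV_om0 P Q p)))
    exact Real.rpow_le_rpow_of_nonpos (by positivity) hk1.le (by linarith)
  have hAE : AEMeasurable h (volume.restrict (TB 2 t)) := by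
    refine ENNReal.measurable_ofReal.comp_aemeasurable ?_
    refine ContinuousOn.aemeasurable ?_ (UHV_open 2 t).measurableSet
    refine (((UHV_cv hD.hol).norm.pow 2).mul (UHV_om hD.hol)).mono fun p hp => ?_
    exact ⟨by have := hp.1; linarith, by have := hp.2; linarith⟩
  calc ∫⁻ p in TB 2 t, ENNReal.ofReal ((max ‖p.2‖ s) ^ (-β) * ‖cv P Q p‖ ^ 2 * om P Q p) ≤
        ∫⁻ p in TB 2 t, ∑' k : ℕ, (TB 2 (ULAY_r t k)).indicator (fun p => c k * h p) p :=
        setLIntegral_mono' (UHV_open 2 t).measurableSet hpt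
    _ = ∑' k : ℕ, ∫⁻ p in TB 2 t, (TB 2 (ULAY_r t k)).indicator (fun p => c k * h p) p :=
        lintegral_tsum fun k => (hAE.const_mul (c k)).indicator (UHV_open 2 _).measurableSet
    _ ≤ ∑' k : ℕ, ENNReal.ofReal (2 * C * D * (1 / 4) ^ (-β) * ULAY_r t k ^ β) := by
        refine ENNReal.tsum_le_tsum fun k => ?_
        rw [lintegral_indicator (UHV_open 2 _).measurableSet, lintegral_const_mul' _ _ (by
          simp only [hc]
          split_ifs
          · exact ENNReal.ofReal_ne_top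
          · exact ENNReal.zero_ne_top)]
        by_cases hsk : s ≤ ULAY_r t k
        · have hrk := ULAY_pos ht k
          have hrk1 : ULAY_r t k ≤ 2 * t := by
            unfold ULAY_r
            have : (1 / 2 : ℝ) ^ k ≤ 1 := pow_le_one₀ (by norm_num) (by norm_num)
            nlinarith
          have h1 := hV P Q u D τ hD hD1 (ULAY_r t k) hrk (by linarith)
          have h2 : ∫⁻ p in TB 2 (ULAY_r t k), h p ∂(volume.restrict (TB 2 t)) ≤ ∫⁻ p in TB 2 (ULAY_r t k), h p :=
            lintegral_mono' (Measure.restrict_mono le_rfl Measure.restrict_le_self) le_rfl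
          have hα0 : ULAY_r t k ≤ ULAY_r t k ^ α := by
            have := Real.rpow_le_rpow_of_exponent_ge hrk (by linarith) hα1
            rwa [Real.rpow_one] at this
          have h3 : 1 ≤ D * ULAY_r t k ^ α := by
            calc (1 : ℝ) ≤ D * s := hDs
              _ ≤ D * ULAY_r t k ^ α := mul_le_mul_of_nonneg_left (hsk.trans hα0) (by linarith)
          have h4 : C * (D * ULAY_r t k ^ α + 1) ≤ 2 * C * D * ULAY_r t k ^ α := by nlinarith
          have h5 : c k = ENNReal.ofReal ((ULAY_r t k / 4) ^ (-β)) := by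
            simp only [hc]
            rw [if_pos hsk]
          rw [h5]
          refine (mul_le_mul_right (h2.trans (h1.trans (ENNReal.ofReal_le_ofReal h4))) _).trans ?_
          rw [← ENNReal.ofReal_mul (by positivity)]
          refine ENNReal.ofReal_le_ofReal (le_of_eq ?_)
          have h6 : (ULAY_r t k / 4) ^ (-β) = (1 / 4) ^ (-β) * ULAY_r t k ^ (-β) := by
            rw [← Real.mul_rpow (by norm_num) hrk.le]
            congr 1
            ring
          have h7 : ULAY_r t k ^ (-β) * ULAY_r t k ^ α = ULAY_r t k ^ β := by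
            rw [← Real.rpow_add hrk]
            congr 1
            rw [hβ]
            ring
          rw [h6, ← h7]
          ring
        · have h5 : c k = 0 := by
            simp only [hc]
            rw [if_neg hsk]
          rw [h5, zero_mul]
          exact bot_le
    _ = ENNReal.ofReal (2 * C * D * (1 / 4) ^ (-β) * (2 * t) ^ β * (1 - (1 / 2 : ℝ) ^ β)⁻¹) :=
        ULAY_geo hβ0 ht (by positivity)
    _ = _ := by
        congr 1
        rw [Real.mul_rpow (by norm_num) ht.le]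
        ring

end Pool.Agent.P2U
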