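import Pool.Agent.helper62.P2.ULAY

/-! # p2:USID -/

set_option autoImplicit false
set_option linter.unusedVariables false

namespace Pool.Agent.P2U

open MeasureTheory Set Filter Topology Metric Complex
open scoped ENNReal ContDiff

theorem USID_vol {r : ℝ} (hr : 0 < r) : volume (ball (0 : ℂ) r) = ENNReal.ofReal (Real.pi * r ^ 2) := by
  rw [Complex.volume_ball, mul_comm, ENNReal.ofReal_mul Real.pi_pos.le, ENNReal.ofReal_pow hr.le,
    ENNReal.ofReal_eq_coe_nnreal Real.pi_pos.le]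
  rfl

/-- the integral of the singular weight -/
theorem USID_wt {β s t : ℝ} (hβ : 0 < β) (hβ2 : β < 2) (hs : 0 < s) (ht : 0 < t) (hst : s ≤ t) :
    ∫⁻ v in ball (0 : ℂ) t, ENNReal.ofReal ((max ‖v‖ s) ^ (β - 2)) ≤
      ENNReal.ofReal ((1 / 4) ^ (β - 2) * Real.pi * (2 * t) ^ β * (1 - (1 / 2 : ℝ) ^ β)⁻¹) := by
  have hpt : ∀ v ∈ ball (0 : ℂ) t, ENNReal.ofReal ((max ‖v‖ s) ^ (β - 2)) ≤
      ∑' k : ℕ, (ball (0 : ℂ) (ULAY_r t k)).indicator (fun _ => ENNReal.ofReal ((ULAY_r t k / 4) ^ (β - 2))) v := by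
    intro v hv
    rw [mem_ball_zero_iff] at hv
    have hm0 : 0 < max ‖v‖ s := lt_of_lt_of_le hs (le_max_right _ _)
    obtain ⟨k, hk1, hk2⟩ := ULAY_ex ht hm0 (max_le hv.le hst)
    have hrk := ULAY_pos ht k
    have hvk : v ∈ ball (0 : ℂ) (ULAY_r t k) := by
      rw [mem_ball_zero_iff]
      have := le_max_left ‖v‖ s
      linarith
    refine le_trans ?_ (ENNReal.le_tsum k)
    rw [indicator_of_mem hvk]
    exact ENNReal.ofReal_le_ofReal (Real.rpow_le_rpow_of_nonpos (by positivity) hk1.le (by linarith))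
  calc ∫⁻ v in ball (0 : ℂ) t, ENNReal.ofReal ((max ‖v‖ s) ^ (β - 2)) ≤
        ∫⁻ v in ball (0 : ℂ) t, ∑' k : ℕ, (ball (0 : ℂ) (ULAY_r t k)).indicator
          (fun _ => ENNReal.ofReal ((ULAY_r t k / 4) ^ (β - 2))) v := setLIntegral_mono' measurableSet_ball hpt
    _ = ∑' k : ℕ, ∫⁻ v in ball (0 : ℂ) t, (ball (0 : ℂ) (ULAY_r t k)).indicator
          (fun _ => ENNReal.ofReal ((ULAY_r t k / 4) ^ (β - 2))) v :=
        lintegral_tsum fun k => (aemeasurable_const).indicator measurableSet_ball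
    _ ≤ ∑' k : ℕ, ENNReal.ofReal ((1 / 4) ^ (β - 2) * Real.pi * ULAY_r t k ^ β) := by
        refine ENNReal.tsum_le_tsum fun k => ?_
        have hrk := ULAY_pos ht k
        rw [lintegral_indicator measurableSet_ball, lintegral_const]
        have h1 : (volume.restrict (ball (0 : ℂ) t)).restrict (ball (0 : ℂ) (ULAY_r t k)) univ ≤
            ENNReal.ofReal (Real.pi * ULAY_r t k ^ 2) := by
          rw [Measure.restrict_apply_univ, ← USID_vol hrk]
          exact Measure.restrict_le_self _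
        refine (mul_le_mul_right h1 _).trans ?_
        rw [← ENNReal.ofReal_mul (by positivity)]
        refine ENNReal.ofReal_le_ofReal (le_of_eq ?_)
        have h6 : (ULAY_r t k / 4) ^ (β - 2) = (1 / 4) ^ (β - 2) * ULAY_r t k ^ (β - 2) := by
          rw [← Real.mul_rpow (by norm_num) hrk.le]
          congr 1
          ring
        have h7 : ULAY_r t k ^ (β - 2) * ULAY_r t k ^ 2 = ULAY_r t k ^ β := by
          rw [← Real.rpow_natCast (ULAY_r t k) 2, ← Real.rpow_add hrk]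
          congr 1
          push_cast
          ring
        rw [h6, ← h7]
        ring
    _ = _ := ULAY_geo hβ ht (by positivity)

theorem USID (hLAY : ULAY_stmt) (hHX : UHX_stmt) : USID_stmt := by
  intro C0 α hC0 hα hα1
  obtain ⟨C1, hC1, h1⟩ := hLAY C0 α hC0 hα hα1
  obtain ⟨C2, hC2, h2⟩ := hHX C0 α hC0 hα hα1
  set β : ℝ := α / 2 with hβ
  have hβ0 : 0 < β := by positivity
  have hr1 : (1 / 2 : ℝ) ^ β < 1 := Real.rpow_lt_one (by norm_num) (by norm_num) hβ0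
  have hinv : 0 < (1 - (1 / 2 : ℝ) ^ β)⁻¹ := inv_pos.2 (by linarith)
  set K : ℝ := (1 / 4) ^ (β - 2) * Real.pi * 2 ^ β * (1 - (1 / 2 : ℝ) ^ β)⁻¹ * C2 with hK
  have hK0 : 0 < K := by
    rw [hK]
    positivity
  refine ⟨C1 + K, by positivity, fun P Q u D τ hD hτ1 s t hs hst ht htτ hsD => ?_⟩
  have ht1 : t ≤ 1 / 4 := by linarith
  have hst' : s ≤ t := by nlinarith
  have hDs : 1 ≤ D * s := by
    rw [div_le_iff₀ hs] at hsD
    linarith
  have hD1 : 1 ≤ D := by nlinarith [one_div_pos.2 hs]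
  have hmeasT : MeasurableSet (TB 2 t) := (UHV_open 2 t).measurableSet
  have hsubT : TB 2 t ⊆ TB 4 τ := fun p hp => ⟨by have := hp.1; linarith, by have := hp.2; linarith⟩
  have hmxc : Continuous fun p : ℂ × ℂ => max ‖p.2‖ s := by fun_prop
  have hmx0 : ∀ p : ℂ × ℂ, 0 < max ‖p.2‖ s := fun p => lt_of_lt_of_le hs (le_max_right _ _)
  have hpt : ∀ p ∈ TB 2 t, ENNReal.ofReal (‖cv P Q p‖ * ‖cx P Q p‖ / max ‖p.2‖ s * om P Q p) ≤
      ENNReal.ofReal ((max ‖p.2‖ s) ^ (-β) * ‖cv P Q p‖ ^ 2 * om P Q p) +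
        ENNReal.ofReal ((max ‖p.2‖ s) ^ (β - 2)) * ENNReal.ofReal (‖cx P Q p‖ ^ 2 * om P Q p) := by
    intro p hp
    have hm := hmx0 p
    have ho := UHV_om0 P Q p
    rw [← ENNReal.ofReal_mul (by positivity), ← ENNReal.ofReal_add (by positivity) (by positivity)]
    refine ENNReal.ofReal_le_ofReal ?_
    set m := max ‖p.2‖ s with hmdef
    set a := ‖cv P Q p‖ with ha
    set b := ‖cx P Q p‖ with hb
    have e1 : m ^ (-β) = (m ^ (-(β / 2))) ^ 2 := by
      rw [← Real.rpow_natCast (m ^ (-(β / 2))) 2, ← Real.rpow_mul hm.le]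
      congr 1
      push_cast
      ring
    have e2 : m ^ (β - 2) = (m ^ (β / 2 - 1)) ^ 2 := by
      rw [← Real.rpow_natCast (m ^ (β / 2 - 1)) 2, ← Real.rpow_mul hm.le]
      congr 1
      push_cast
      ring
    have e3 : m ^ (-(β / 2)) * m ^ (β / 2 - 1) = m⁻¹ := by
      rw [← Real.rpow_add hm, show -(β / 2) + (β / 2 - 1) = -1 by ring, Real.rpow_neg_one]
    have key : a * b / m ≤ m ^ (-β) * a ^ 2 + m ^ (β - 2) * b ^ 2 := by
      rw [e1, e2, div_eq_mul_inv, ← e3]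
      have p1 : 0 ≤ m ^ (-(β / 2)) * a := by positivity
      have p2 : 0 ≤ m ^ (β / 2 - 1) * b := by positivity
      nlinarith [sq_nonneg (m ^ (-(β / 2)) * a - m ^ (β / 2 - 1) * b), mul_nonneg p1 p2]
    calc a * b / m * om P Q p ≤ (m ^ (-β) * a ^ 2 + m ^ (β - 2) * b ^ 2) * om P Q p :=
          mul_le_mul_of_nonneg_right key ho
      _ = _ := by ring
  have hcmx : ContinuousOn (fun p : ℂ × ℂ => (max ‖p.2‖ s) ^ (β - 2)) (TB 2 t) :=
    ContinuousOn.rpow_const hmxc.continuousOn fun p _ => Or.inl (hmx0 p).ne'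
  have hAE2 : AEMeasurable (fun p : ℂ × ℂ => ENNReal.ofReal ((max ‖p.2‖ s) ^ (β - 2)) *
      ENNReal.ofReal (‖cx P Q p‖ ^ 2 * om P Q p)) (volume.restrict (TB 2 t)) := by
    have ha : AEMeasurable (fun p : ℂ × ℂ => ENNReal.ofReal ((max ‖p.2‖ s) ^ (β - 2))) (volume.restrict (TB 2 t)) :=
      ENNReal.measurable_ofReal.comp_aemeasurable (hcmx.aemeasurable hmeasT)
    have hb : AEMeasurable (fun p : ℂ × ℂ => ENNReal.ofReal (‖cx P Q p‖ ^ 2 * om P Q p)) (volume.restrict (TB 2 t)) :=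
      ENNReal.measurable_ofReal.comp_aemeasurable (ContinuousOn.aemeasurable
        ((((UHV_cx hD.hol).norm.pow 2).mul (UHV_om hD.hol)).mono hsubT) hmeasT)
    exact ha.mul hb
  have hsec : ∫⁻ p in TB 2 t, ENNReal.ofReal ((max ‖p.2‖ s) ^ (β - 2)) *
      ENNReal.ofReal (‖cx P Q p‖ ^ 2 * om P Q p) ≤ ENNReal.ofReal (K * D * t ^ β) := by
    have hprod : ∫⁻ p in TB 2 t, ENNReal.ofReal ((max ‖p.2‖ s) ^ (β - 2)) *
        ENNReal.ofReal (‖cx P Q p‖ ^ 2 * om P Q p) =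
        ∫⁻ v in ball (0 : ℂ) t, ∫⁻ x in ball (0 : ℂ) 2, ENNReal.ofReal ((max ‖v‖ s) ^ (β - 2)) *
          ENNReal.ofReal (‖cx P Q (x, v)‖ ^ 2 * om P Q (x, v)) := by
      have hAE3 : AEMeasurable (fun p : ℂ × ℂ => ENNReal.ofReal ((max ‖p.2‖ s) ^ (β - 2)) *
          ENNReal.ofReal (‖cx P Q p‖ ^ 2 * om P Q p))
          ((volume.restrict (ball (0 : ℂ) 2)).prod (volume.restrict (ball (0 : ℂ) t))) := by
        rw [Measure.prod_restrict, ← Measure.volume_eq_prod, ← UHV_TB]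
        exact hAE2
      rw [UHV_TB, Measure.volume_eq_prod, ← Measure.prod_restrict, lintegral_prod_symm _ hAE3]
    rw [hprod]
    have hin : ∀ v ∈ ball (0 : ℂ) t, ∫⁻ x in ball (0 : ℂ) 2, ENNReal.ofReal ((max ‖v‖ s) ^ (β - 2)) *
        ENNReal.ofReal (‖cx P Q (x, v)‖ ^ 2 * om P Q (x, v)) ≤
        ENNReal.ofReal ((max ‖v‖ s) ^ (β - 2)) * ENNReal.ofReal (C2 * D) := by
      intro v hv
      rw [lintegral_const_mul' _ _ ENNReal.ofReal_ne_top]
      refine mul_le_mul_right (h2 P Q u D τ hD hD1 v ?_) _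
      rw [mem_ball_zero_iff] at hv
      linarith
    refine (setLIntegral_mono' measurableSet_ball hin).trans ?_
    rw [lintegral_mul_const' _ _ ENNReal.ofReal_ne_top]
    refine (mul_le_mul_left (USID_wt hβ0 (by rw [hβ]; linarith) hs ht hst') _).trans ?_
    rw [← ENNReal.ofReal_mul (by positivity)]
    refine ENNReal.ofReal_le_ofReal (le_of_eq ?_)
    rw [Real.mul_rpow (by norm_num) ht.le, hK]
    ring
  calc ∫⁻ p in TB 2 t, ENNReal.ofReal (‖cv P Q p‖ * ‖cx P Q p‖ / max ‖p.2‖ s * om P Q p) ≤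
        ∫⁻ p in TB 2 t, (ENNReal.ofReal ((max ‖p.2‖ s) ^ (-β) * ‖cv P Q p‖ ^ 2 * om P Q p) +
        ENNReal.ofReal ((max ‖p.2‖ s) ^ (β - 2)) * ENNReal.ofReal (‖cx P Q p‖ ^ 2 * om P Q p)) :=
        setLIntegral_mono' hmeasT hpt
    _ = (∫⁻ p in TB 2 t, ENNReal.ofReal ((max ‖p.2‖ s) ^ (-β) * ‖cv P Q p‖ ^ 2 * om P Q p)) +
        ∫⁻ p in TB 2 t, ENNReal.ofReal ((max ‖p.2‖ s) ^ (β - 2)) * ENNReal.ofReal (‖cx P Q p‖ ^ 2 * om P Q p) :=
        lintegral_add_right' _ hAE2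
    _ ≤ ENNReal.ofReal (C1 * D * t ^ β) + ENNReal.ofReal (K * D * t ^ β) :=
        add_le_add (h1 P Q u D τ hD hτ1 s t hs hst ht htτ hsD) hsec
    _ = _ := by
        rw [← ENNReal.ofReal_add (by positivity) (by positivity)]
        congr 1
        ring

end Pool.Agent.P2U
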